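import Pool.Agent.Helper81.FreeL1C.Defs
import Pool.Agent.Helper81.FreeL1.F10

/-! From an embedding of `c₀` into the free space to molecules on `ℓ₁`. -/

open Filter Topology

namespace Pool.Agent.Helper81.FreeL1C

open Pool.Agent.Helper81.FreeL1

/-- the unit vectors of `c₀` -/
noncomputable def unitVec (n : ℕ) : ZeroAtInftyContinuousMap ℕ ℝ where
  toFun := fun k => if k = n then 1 else 0
  continuous_toFun := continuous_of_discreteTopology
  zero_at_infty' := by
    rw [Filter.cocompact_eq_cofinite, Nat.cofinite_eq_atTop]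
    refine tendsto_const_nhds.congr' ?_
    filter_upwards [eventually_gt_atTop n] with k hk
    rw [if_neg (by omega)]

lemma unitVec_apply (n k : ℕ) : unitVec n k = if k = n then 1 else 0 := rfl

/-- the finitely supported sequences as elements of `c₀` -/
noncomputable def toC0 (t : ℕ →₀ ℝ) : ZeroAtInftyContinuousMap ℕ ℝ := ∑ n ∈ t.support, t n • unitVec n

lemma toC0_apply (t : ℕ →₀ ℝ) (k : ℕ) : toC0 t k = t k := by
  have h1 : ∀ (s : Finset ℕ) (g : ℕ → ZeroAtInftyContinuousMap ℕ ℝ),
      (∑ n ∈ s, g n) k = ∑ n ∈ s, g n k := by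
    intro s g
    classical
    induction s using Finset.induction_on with
    | empty => simp
    | insert a s ha ih => rw [Finset.sum_insert ha, Finset.sum_insert ha, ZeroAtInftyContinuousMap.add_apply, ih]
  unfold toC0
  rw [h1]
  simp only [ZeroAtInftyContinuousMap.smul_apply, unitVec_apply, smul_eq_mul, mul_ite, mul_one, mul_zero]
  rw [Finset.sum_ite_eq]
  by_cases h : k ∈ t.support
  · rw [if_pos h]
  · rw [if_neg h, Finsupp.notMem_support_iff.mp h]

lemma bddAbove_t (t : ℕ →₀ ℝ) : BddAbove (Set.range fun n => |t n|) := by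
  refine ⟨∑ k ∈ t.support, |t k|, ?_⟩
  rintro _ ⟨n, rfl⟩
  by_cases hn : n ∈ t.support
  · exact Finset.single_le_sum (f := fun k => |t k|) (fun _ _ => abs_nonneg _) hn
  · rw [Finsupp.notMem_support_iff] at hn
    simp only [hn, abs_zero]
    exact Finset.sum_nonneg fun _ _ => abs_nonneg _

lemma norm_toC0 (t : ℕ →₀ ℝ) : ‖toC0 t‖ = ⨆ n, |t n| := by
  rw [← ZeroAtInftyContinuousMap.norm_toBCF_eq_norm, BoundedContinuousFunction.norm_eq_iSup_norm]
  refine iSup_congr fun n => ?_
  show ‖toC0 t n‖ = _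
  rw [toC0_apply, Real.norm_eq_abs]

section

variable {M : Type*} [MetricSpace M] {o : M}

/-- the functional given by a molecule -/
noncomputable def molF (o : M) (μ : M →₀ ℝ) : LipZero M o →L[ℝ] ℝ := μ.sum fun x c => c • delta o x

lemma molF_apply (μ : M →₀ ℝ) (f : LipZero M o) : molF o μ f = μ.sum fun x c => c * f.1 x := by
  unfold molF
  rw [Finsupp.sum, Finsupp.sum, sum_apply]
  rfl

lemma exists_mol (u : FreeSpace M o) {ε : ℝ} (hε : 0 < ε) :
    ∃ μ : M →₀ ℝ, ‖incl o u - molF o μ‖ ≤ ε := by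
  have h1 : incl o u ∈
      closure (Submodule.span ℝ (Set.range (delta (M := M) o)) : Set (LipZero M o →L[ℝ] ℝ)) := u.2
  obtain ⟨v, hv, hv2⟩ := Metric.mem_closure_iff.mp h1 ε hε
  obtain ⟨μ, rfl⟩ := (Finsupp.mem_span_range_iff_exists_finsupp).mp hv
  exact ⟨μ, by rw [← dist_eq_norm]; exact hv2.le⟩

end

section

variable {X : Type*} [NormedAddCommGroup X] [NormedSpace ℝ X] {M : Type*} [MetricSpace M] {o : M}

theorem core_thm (c : Coord X) (T : ZeroAtInftyContinuousMap ℕ ℝ →L[ℝ] FreeSpace M o) (κ : ℝ) (hκ : 0 < κ)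
    (hT : ∀ v, κ * ‖v‖ ≤ ‖T v‖)
    (hM : ∀ S : Set M, S.Countable → ∃ (j : M → X) (A B : ℝ), 0 < A ∧ 0 < B ∧
      ∀ x ∈ S, ∀ y ∈ S, A * dist x y ≤ ‖j x - j y‖ ∧ ‖j x - j y‖ ≤ B * dist x y) : False := by
  classical
  -- the molecules
  have h1 : ∀ n, ∃ μ : M →₀ ℝ, ‖incl o (T (unitVec n)) - molF o μ‖ ≤ κ / 4 * (1 / 2) ^ n :=
    fun n => exists_mol _ (by positivity)
  choose μ hμ using h1
  set S : Set M := insert o (⋃ n, ((μ n).support : Set M)) with hS
  have hSc : S.Countable := (Set.countable_iUnion fun n => (μ n).support.countable_toSet).insert o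
  obtain ⟨j, A, B, hA, hB, hj⟩ := hM S hSc
  have hoS : o ∈ S := Set.mem_insert _ _
  have hxS : ∀ n, ∀ x ∈ (μ n).support, x ∈ S := fun n x hx =>
    Set.mem_insert_of_mem _ (Set.mem_iUnion.mpr ⟨n, hx⟩)
  set J : M → X := fun x => j x - j o with hJ
  have hJ1 : ∀ x y, J x - J y = j x - j y := fun x y => by simp only [hJ]; abel
  -- the functional of a combination
  set U : (ℕ →₀ ℝ) → (LipZero M o →L[ℝ] ℝ) := fun t => ∑ n ∈ t.support, t n • molF o (μ n) with hU
  have hU1 : ∀ t f, U t f = t.sum fun n s => s * (μ n).sum fun x c => c * f.1 x := by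
    intro t f
    simp only [hU, sum_apply, Finsupp.sum]
    refine Finset.sum_congr rfl fun n _ => ?_
    show t n * molF o (μ n) f = _
    rw [molF_apply]; rfl
  have hU2 : ∀ t, ‖incl o (T (toC0 t)) - U t‖ ≤ κ / 2 * ⨆ n, |t n| := by
    intro t
    have e1 : incl o (T (toC0 t)) =
        ∑ n ∈ t.support, t n • incl o (T (unitVec n)) := by
      unfold toC0
      rw [map_sum, map_sum]
      refine Finset.sum_congr rfl fun n _ => ?_
      rw [map_smul, map_smul]
    rw [e1, hU, ← Finset.sum_sub_distrib]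
    refine (norm_sum_le _ _).trans ?_
    have h2 : ∀ n ∈ t.support, ‖t n • incl o (T (unitVec n)) - t n • molF o (μ n)‖ ≤
        κ / 4 * (⨆ n, |t n|) * (1 / 2) ^ n := by
      intro n _
      rw [show t n • incl o (T (unitVec n)) - t n • molF o (μ n) = t n • (incl o (T (unitVec n)) - molF o (μ n))
        from (smul_sub _ _ _).symm, norm_smul, Real.norm_eq_abs]
      calc |t n| * ‖incl o (T (unitVec n)) - molF o (μ n)‖
          ≤ (⨆ n, |t n|) * (κ / 4 * (1 / 2) ^ n) :=
            mul_le_mul (le_ciSup (bddAbove_t t) n) (hμ n) (norm_nonneg _)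
              ((abs_nonneg _).trans (le_ciSup (bddAbove_t t) n))
        _ = _ := by ring
    refine (Finset.sum_le_sum h2).trans ?_
    rw [← Finset.mul_sum]
    have h3 : ∑ n ∈ t.support, (1 / 2 : ℝ) ^ n ≤ 2 := by
      have := summable_geometric_two.sum_le_tsum t.support (fun _ _ => by positivity)
      rwa [tsum_geometric_two] at this
    have h4 : 0 ≤ ⨆ n, |t n| := (abs_nonneg _).trans (le_ciSup (bddAbove_t t) 0)
    have h5 : 0 ≤ κ / 4 * (⨆ n, |t n|) := by positivity
    calc _ ≤ κ / 4 * (⨆ n, |t n|) * 2 := mul_le_mul_of_nonneg_left h3 h5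
      _ = _ := by ring
  refine no_c0 c (fun n => (μ n).mapDomain J) (A * (κ / 4)) (B * (‖T‖ + κ)) (by positivity) fun t => ⟨?_, ?_⟩
  · -- upper bound
    intro f hf hf0
    have hg : LipschitzOnWith ⟨B, hB.le⟩ (fun x => f (J x)) S := by
      refine LipschitzOnWith.of_dist_le_mul fun x hx y hy => ?_
      have e1 := hf.dist_le_mul (J x) (J y)
      rw [NNReal.coe_one, one_mul, dist_eq_norm (J x), hJ1] at e1
      exact e1.trans (hj x hx y hy).2
    obtain ⟨g, hg1, hg2⟩ := hg.extend_real
    have hgo : g o = 0 := by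
      rw [← hg2 hoS]
      show f (j o - j o) = 0
      rw [sub_self, hf0]
    have hgL : ∀ x y, |g x - g y| ≤ B * dist x y := fun x y => hg1.dist_le_mul x y
    set G : LipZero M o := ⟨g, hgo, B, hgL⟩ with hG
    have hGn : ‖G‖ ≤ B := norm_le' _ hB.le hgL
    have e2 : (t.sum fun n s => s * ((μ n).mapDomain J).sum fun x c => c * f x) = U t G := by
      rw [hU1]
      refine Finsupp.sum_congr fun n _ => ?_
      congr 1
      rw [Finsupp.sum_mapDomain_index (by simp) (by intros; ring)]
      refine Finsupp.sum_congr fun x hx => ?_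
      show _ = (μ n) x * g x
      rw [← hg2 (hxS n x hx)]
    rw [e2]
    have h4 : 0 ≤ ⨆ n, |t n| := (abs_nonneg _).trans (le_ciSup (bddAbove_t t) 0)
    have h5 : ‖U t‖ ≤ (‖T‖ + κ) * ⨆ n, |t n| := by
      have e3 : U t = incl o (T (toC0 t)) -
        (incl o (T (toC0 t)) - U t) := by abel
      rw [e3]
      refine (norm_sub_le _ _).trans ?_
      have e4 := T.le_opNorm (toC0 t)
      rw [norm_toC0] at e4
      have e5 : ‖incl o (T (toC0 t))‖ = ‖T (toC0 t)‖ := (incl o).norm_map _
      rw [e5]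
      have := hU2 t
      nlinarith
    calc |U t G| ≤ ‖U t‖ * ‖G‖ := (U t).le_opNorm G
      _ ≤ ((‖T‖ + κ) * ⨆ n, |t n|) * B := mul_le_mul h5 hGn (norm_nonneg _)
          (mul_nonneg (by positivity) h4)
      _ = _ := by ring
  · -- lower bound
    have h4 : 0 ≤ ⨆ n, |t n| := (abs_nonneg _).trans (le_ciSup (bddAbove_t t) 0)
    have h5 : κ / 2 * (⨆ n, |t n|) ≤ ‖U t‖ := by
      have e4 := hT (toC0 t)
      rw [norm_toC0] at e4
      have e5 : ‖incl o (T (toC0 t))‖ = ‖T (toC0 t)‖ := (incl o).norm_map _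
      rw [← e5] at e4
      have e6 := norm_sub_norm_le (incl o (T (toC0 t))) (U t)
      have := hU2 t
      nlinarith
    obtain ⟨F, hF1, hF2⟩ : ∃ F : LipZero M o, ‖F‖ ≤ 1 ∧ κ / 4 * (⨆ n, |t n|) ≤ |U t F| := by
      rcases h4.eq_or_lt with h0 | h0
      · exact ⟨0, by simp, by rw [← h0, mul_zero]; exact abs_nonneg _⟩
      · by_contra hcon
        push Not at hcon
        have h6 : ‖U t‖ ≤ κ / 4 * ⨆ n, |t n| := by
          refine ContinuousLinearMap.opNorm_le_of_unit_norm (by positivity) fun F hF => ?_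
          exact (hcon F hF.le).le
        nlinarith
    have hFl : ∀ x y, |F.1 x - F.1 y| ≤ dist x y := fun x y => by
      refine (abs_sub_le' F x y).trans ?_
      have := mul_le_mul_of_nonneg_right hF1 (dist_nonneg (x := x) (y := y))
      rwa [one_mul] at this
    -- transport
    have hJinj : ∀ x ∈ S, ∀ y ∈ S, J x = J y → x = y := by
      intro x hx y hy hxy
      have e1 := (hj x hx y hy).1
      rw [← hJ1, hxy, sub_self, norm_zero] at e1
      exact dist_le_zero.mp (nonpos_of_mul_nonpos_right e1 hA)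
    have hex : ∀ z ∈ J '' S, ∃ x ∈ S, J x = z := fun z hz => hz
    set h : X → ℝ := fun z => if hz : z ∈ J '' S then F.1 (hex z hz).choose else 0 with hh
    have hhJ : ∀ x ∈ S, h (J x) = F.1 x := by
      intro x hx
      have hz : J x ∈ J '' S := ⟨x, hx, rfl⟩
      simp only [hh]
      rw [dif_pos hz]
      have e1 := (hex _ hz).choose_spec
      rw [hJinj _ e1.1 x hx e1.2]
    have hhL : LipschitzOnWith ⟨1 / A, by positivity⟩ h (J '' S) := by
      refine LipschitzOnWith.of_dist_le_mul ?_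
      rintro _ ⟨x, hx, rfl⟩ _ ⟨y, hy, rfl⟩
      rw [hhJ x hx, hhJ y hy, Real.dist_eq, dist_eq_norm, hJ1]
      refine (hFl x y).trans ?_
      show dist x y ≤ 1 / A * _
      rw [one_div_mul_eq_div, le_div_iff₀ hA, mul_comm]
      exact (hj x hx y hy).1
    obtain ⟨g, hg1, hg2⟩ := hhL.extend_real
    refine ⟨fun z => A * g z, ?_, ?_, ?_⟩
    · refine LipschitzWith.of_dist_le_mul fun x y => ?_
      have e1 := hg1.dist_le_mul x y
      rw [Real.dist_eq] at e1 ⊢
      have e2 : A * g x - A * g y = A * (g x - g y) := by ring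
      rw [e2, abs_mul, abs_of_pos hA, NNReal.coe_one, one_mul]
      calc A * |g x - g y| ≤ A * (1 / A * dist x y) := mul_le_mul_of_nonneg_left e1 hA.le
        _ = dist x y := by field_simp
    · have e1 : J o = 0 := sub_self _
      show A * g 0 = 0
      rw [← e1, ← hg2 ⟨o, hoS, rfl⟩, hhJ o hoS, F.2.1, mul_zero]
    · have e2 : (t.sum fun n s => s * ((μ n).mapDomain J).sum fun x c => c * (A * g x)) = A * U t F := by
        rw [hU1, Finsupp.mul_sum]
        refine Finsupp.sum_congr fun n _ => ?_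
        have e3 : (((μ n).mapDomain J).sum fun x c => c * (A * g x)) = A * (μ n).sum fun x c => c * F.1 x := by
          rw [Finsupp.sum_mapDomain_index (by simp) (by intros; ring), Finsupp.mul_sum]
          refine Finset.sum_congr rfl fun x hx => ?_
          show (μ n) x * (A * g (J x)) = A * ((μ n) x * F.1 x)
          rw [← hg2 ⟨x, hxS n x hx, rfl⟩, hhJ x (hxS n x hx)]
          ring
        show t n * _ = A * (t n * _)
        rw [e3]
        ring
      rw [e2, abs_mul, abs_of_pos hA, mul_assoc]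
      exact mul_le_mul_of_nonneg_left hF2 hA.le

end

end Pool.Agent.Helper81.FreeL1C
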