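import Mathlib

/-! The Lipschitz-free space of a pointed metric space, as the closed span of the evaluations in the
dual of the Banach space of Lipschitz functions vanishing at the base point. -/

namespace Pool.Agent.Helper81.FreeL1C

variable (M : Type*) [MetricSpace M] (o : M)

/-- The vector space of Lipschitz functions on `M` which vanish at the base point `o`. -/
def lipSub : Submodule ℝ (M → ℝ) where
  carrier := {f | f o = 0 ∧ ∃ K : ℝ, ∀ x y, |f x - f y| ≤ K * dist x y}
  zero_mem' := ⟨rfl, 0, fun x y => by simp⟩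
  add_mem' := by
    rintro f g ⟨hf, K, hK⟩ ⟨hg, L, hL⟩
    refine ⟨by simp [hf, hg], K + L, fun x y => ?_⟩
    have e : (f + g) x - (f + g) y = (f x - f y) + (g x - g y) := by
      simp only [Pi.add_apply]; ring
    rw [e, add_mul]
    exact (abs_add_le _ _).trans (add_le_add (hK x y) (hL x y))
  smul_mem' := by
    rintro a f ⟨hf, K, hK⟩
    refine ⟨by simp [hf], |a| * K, fun x y => ?_⟩
    have e : (a • f) x - (a • f) y = a * (f x - f y) := by
      simp only [Pi.smul_apply, smul_eq_mul]; ring
    rw [e, abs_mul, mul_assoc]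
    exact mul_le_mul_of_nonneg_left (hK x y) (abs_nonneg a)

/-- `Lip₀(M)`: the Lipschitz functions on `M` vanishing at the base point `o`. -/
def LipZero : Type _ := lipSub M o

noncomputable instance : AddCommGroup (LipZero M o) := (lipSub M o).addCommGroup

noncomputable instance : Module ℝ (LipZero M o) := (lipSub M o).module

/-- The norm of `Lip₀(M)`: the best Lipschitz constant. -/
noncomputable instance : Norm (LipZero M o) :=
  ⟨fun f => sInf {K : ℝ | 0 ≤ K ∧ ∀ x y, |f.1 x - f.1 y| ≤ K * dist x y}⟩

variable {M o}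

lemma norm_def (f : LipZero M o) :
    ‖f‖ = sInf {K : ℝ | 0 ≤ K ∧ ∀ x y, |f.1 x - f.1 y| ≤ K * dist x y} := rfl

lemma norm_nonneg' (f : LipZero M o) : 0 ≤ ‖f‖ := Real.sInf_nonneg fun _ h => h.1

lemma norm_le' (f : LipZero M o) {K : ℝ} (hK : 0 ≤ K) (h : ∀ x y, |f.1 x - f.1 y| ≤ K * dist x y) :
    ‖f‖ ≤ K := csInf_le ⟨0, fun _ h => h.1⟩ ⟨hK, h⟩

lemma abs_sub_le' (f : LipZero M o) (x y : M) : |f.1 x - f.1 y| ≤ ‖f‖ * dist x y := by
  obtain ⟨hf, K, hK⟩ := f.2
  rcases eq_or_ne x y with rfl | hxy
  · simp
  have hd : 0 < dist x y := dist_pos.mpr hxy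
  rw [← div_le_iff₀ hd]
  refine le_csInf ⟨max K 0, le_max_right _ _, fun x y => (hK x y).trans ?_⟩ ?_
  · exact mul_le_mul_of_nonneg_right (le_max_left _ _) dist_nonneg
  · rintro L ⟨_, hL⟩
    rw [div_le_iff₀ hd]
    exact hL x y

variable (M o)

lemma core : NormedSpace.Core ℝ (LipZero M o) where
  norm_nonneg := norm_nonneg'
  norm_smul a f := by
    apply le_antisymm
    · refine norm_le' _ (mul_nonneg (norm_nonneg _) (norm_nonneg' _)) fun x y => ?_
      have e : (a • f).1 x - (a • f).1 y = a * (f.1 x - f.1 y) := by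
        show a * f.1 x - a * f.1 y = _
        ring
      rw [e, abs_mul, mul_assoc, Real.norm_eq_abs]
      exact mul_le_mul_of_nonneg_left (abs_sub_le' f x y) (abs_nonneg a)
    · rcases eq_or_ne a 0 with rfl | ha
      · rw [norm_zero, zero_mul]; exact norm_nonneg' _
      · have ha' : 0 < ‖a‖ := norm_pos_iff.mpr ha
        rw [mul_comm, ← le_div_iff₀ ha']
        refine norm_le' _ (div_nonneg (norm_nonneg' _) ha'.le) fun x y => ?_
        have e : (a • f).1 x - (a • f).1 y = a * (f.1 x - f.1 y) := by
          show a * f.1 x - a * f.1 y = _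
          ring
        have h := abs_sub_le' (a • f) x y
        rw [e, abs_mul, ← Real.norm_eq_abs a] at h
        rw [div_mul_eq_mul_div, le_div_iff₀ ha', mul_comm]
        exact h
  norm_triangle f g := by
    refine norm_le' _ (add_nonneg (norm_nonneg' _) (norm_nonneg' _)) fun x y => ?_
    have e : (f + g).1 x - (f + g).1 y = (f.1 x - f.1 y) + (g.1 x - g.1 y) := by
      show (f.1 x + g.1 x) - (f.1 y + g.1 y) = _
      ring
    rw [e, add_mul]
    exact (abs_add_le _ _).trans (add_le_add (abs_sub_le' f x y) (abs_sub_le' g x y))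
  norm_eq_zero_iff f := by
    constructor
    · intro h
      apply Subtype.ext
      funext x
      have h1 := abs_sub_le' f x o
      rw [h, zero_mul, f.2.1, sub_zero] at h1
      exact abs_nonpos_iff.mp h1
    · rintro rfl
      refine le_antisymm (norm_le' _ le_rfl fun x y => ?_) (norm_nonneg' _)
      show |(0 : ℝ) - 0| ≤ _
      simp

noncomputable instance : NormedAddCommGroup (LipZero M o) := NormedAddCommGroup.ofCore (core M o)

noncomputable instance : NormedSpace ℝ (LipZero M o) := NormedSpace.ofCore (core M o)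

variable {M}

/-- The evaluation functional `δ(x)` on `Lip₀(M)`. -/
noncomputable def delta (x : M) : LipZero M o →L[ℝ] ℝ :=
  LinearMap.mkContinuous
    { toFun := fun f => f.1 x
      map_add' := fun _ _ => rfl
      map_smul' := fun _ _ => rfl } (dist x o) (by
    intro f
    have h1 := abs_sub_le' f x o
    rw [f.2.1, sub_zero, mul_comm] at h1
    exact h1)

lemma delta_apply (x : M) (f : LipZero M o) : delta o x f = f.1 x := rfl

variable (M)

/-- The closed linear span of the evaluations `δ(x)`, `x ∈ M`, in the dual Banach space of `Lip₀(M)`. -/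
noncomputable def freeSub : Submodule ℝ (LipZero M o →L[ℝ] ℝ) :=
  (Submodule.span ℝ (Set.range (delta (M := M) o))).topologicalClosure

/-- The Lipschitz-free space `F(M)`: the closed linear span of the evaluations `δ(x)`, `x ∈ M`, in the
dual Banach space of `Lip₀(M)`, with the norm of that dual space. -/
def FreeSpace : Type _ := freeSub M o

noncomputable instance : NormedAddCommGroup (FreeSpace M o) := (freeSub M o).normedAddCommGroup

noncomputable instance : NormedSpace ℝ (FreeSpace M o) := (freeSub M o).normedSpace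

instance : CompleteSpace (FreeSpace M o) := by
  have h : IsClosed (freeSub M o : Set (LipZero M o →L[ℝ] ℝ)) :=
    Submodule.isClosed_topologicalClosure _
  exact h.completeSpace_coe

variable {M}

/-- the inclusion of `F(M)` in the dual of `Lip₀(M)` -/
noncomputable def incl : FreeSpace M o →ₗᵢ[ℝ] (LipZero M o →L[ℝ] ℝ) := (freeSub M o).subtypeₗᵢ

end Pool.Agent.Helper81.FreeL1C
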