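import Pool.Agent.Helper81.FreeL1C.Core

/-! Countable subsets of `ℓ₁(Γ)` embed isometrically in `ℓ₁`. -/

open Filter Topology

namespace Pool.Agent.Helper81.FreeL1C

section

variable {Γ : Type*}

lemma summable_l1 (x : lp (fun _ : Γ => ℝ) 1) : Summable fun i => ‖x i‖ := by
  have := (lp.hasSum_norm (p := 1) (by norm_num) x).summable
  simpa using this

lemma norm_l1 (x : lp (fun _ : Γ => ℝ) 1) : ‖x‖ = ∑' i, ‖x i‖ := by
  have := (lp.hasSum_norm (p := 1) (by norm_num) x).tsum_eq
  simpa using this.symm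

lemma exists_pi (S : Set (lp (fun _ : Γ => ℝ) 1)) (hS : S.Countable) :
    ∃ p : lp (fun _ : Γ => ℝ) 1 → lp (fun _ : ℕ => ℝ) 1, ∀ x ∈ S, ∀ y ∈ S, ‖p x - p y‖ = ‖x - y‖ := by
  classical
  set G : Set Γ := ⋃ x ∈ S, Function.support (fun i => ‖x i‖) with hG
  have hGc : G.Countable := hS.biUnion fun x _ => (summable_l1 x).countable_support
  have : Countable G := hGc.to_subtype
  obtain ⟨ι, hι⟩ := exists_injective_nat G
  have hext : ∀ (x : lp (fun _ : Γ => ℝ) 1) (n : ℕ), ‖Function.extend ι (fun γ : G => x γ) 0 n‖ =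
      Function.extend ι (fun γ : G => ‖x γ‖) 0 n := by
    intro x n
    rw [Function.apply_extend (fun r : ℝ => ‖r‖)]
    congr 1
    funext k
    simp
  have hsum : ∀ x : lp (fun _ : Γ => ℝ) 1, Summable fun n => ‖Function.extend ι (fun γ : G => x γ) 0 n‖ := by
    intro x
    simp_rw [hext]
    rw [summable_extend_zero hι]
    exact (summable_l1 x).subtype _
  refine ⟨fun x => ⟨Function.extend ι (fun γ : G => x γ) 0, memℓp_gen (by simpa using hsum x)⟩, ?_⟩
  intro x hx y hy
  rw [norm_l1, norm_l1]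
  have e1 : ∀ n, ‖Function.extend ι (fun γ : G => x γ) 0 n - Function.extend ι (fun γ : G => y γ) 0 n‖ =
      Function.extend ι (fun γ : G => ‖(x - y) γ‖) 0 n := by
    intro n
    rw [← hext]
    congr 1
    by_cases h : ∃ γ, ι γ = n
    · obtain ⟨γ, rfl⟩ := h
      simp only [hι.extend_apply]
      rfl
    · rw [Function.extend_apply' _ _ _ h, Function.extend_apply' _ _ _ h, Function.extend_apply' _ _ _ h]
      simp
  calc ∑' n, ‖Function.extend ι (fun γ : G => x γ) 0 n - Function.extend ι (fun γ : G => y γ) 0 n‖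
      = ∑' n, Function.extend ι (fun γ : G => ‖(x - y) γ‖) 0 n := tsum_congr e1
    _ = ∑' γ : G, ‖(x - y) γ‖ := tsum_extend_zero hι _
    _ = ∑' γ, ‖(x - y) γ‖ := by
      refine tsum_subtype_eq_of_support_subset (f := fun γ => ‖(x - y) γ‖) ?_
      intro γ hγ
      rw [Function.mem_support] at hγ
      by_contra hcon
      apply hγ
      have h1 : ∀ z ∈ S, z γ = 0 := by
        intro z hz
        by_contra h2
        exact hcon (Set.mem_iUnion₂.mpr ⟨z, hz, by
          rw [Function.mem_support]; simpa using h2⟩)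
      show ‖x γ - y γ‖ = 0
      rw [h1 x hx, h1 y hy]
      simp

/-- The main theorem. -/
theorem main {M : Type*} [MetricSpace M] (o : M) (j : M → lp (fun _ : Γ => ℝ) 1) (A B : ℝ) (hA : 0 < A)
    (hj : ∀ x y, A * dist x y ≤ dist (j x) (j y) ∧ dist (j x) (j y) ≤ B * dist x y)
    (T : ZeroAtInftyContinuousMap ℕ ℝ →L[ℝ] FreeSpace M o) (h1 : Function.Injective T)
    (h2 : IsClosed (Set.range T)) : False := by
  obtain ⟨K, hK⟩ := T.antilipschitz_of_injective_of_isClosed_range h1 h2
  have h3 : ∀ v, ‖v‖ ≤ (K + 1) * ‖T v‖ := by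
    intro v
    have e1 := hK.le_mul_dist v 0
    simp only [dist_zero_right, map_zero] at e1
    have e2 := norm_nonneg (T v)
    linarith
  refine core_thm Pool.Agent.Helper81.FreeL1.coordL1 T (1 / (K + 1)) (by positivity) (fun v => ?_) ?_
  · rw [one_div_mul_eq_div, div_le_iff₀ (by positivity), mul_comm]
    exact h3 v
  · intro S hS
    obtain ⟨p, hp⟩ := exists_pi (j '' S) (hS.image j)
    refine ⟨fun x => p (j x), A, max B 1, hA, lt_of_lt_of_le one_pos (le_max_right _ _), ?_⟩
    intro x hx y hy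
    rw [hp _ ⟨x, hx, rfl⟩ _ ⟨y, hy, rfl⟩, ← dist_eq_norm]
    refine ⟨(hj x y).1, (hj x y).2.trans ?_⟩
    exact mul_le_mul_of_nonneg_right (le_max_left _ _) dist_nonneg

end

end Pool.Agent.Helper81.FreeL1C
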